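import Pool.Agent.KS6_73.CoverFree
import Pool.Agent.KS6_73.AffPlane

/-!
# MP_0b1105_co, Q2: `N*(t) ≥ (t + 1)^2` for every `t ≥ 1`

`N*(t)` is the least `n` for which some `t`-cover-free family of subsets of an `n`-set has more than
`n` members. We prove the inequality `N*(t) ≥ (t + 1)^2` of Erdős, Frankl and Füredi for every
`t ≥ 1`, with equality whenever `t + 1` is a prime power.

Proof. If a `t`-cover-free family on `n` points has more than `n` members, the indicator vectors
satisfy a linear relation `∑_{A ∈ P} λ_A 1_A = ∑_{B ∈ M} μ_B 1_B =: h` with positive coefficients,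
`P` and `M` being disjoint and not both empty. For `A ∈ P` the members of `M` with the weights `μ`
form a fractional cover of `A`, of density `h v` at `v`, whereas `A` is not in the union of `t` of
them. The library inequality `main_ineq` (cover number squared at most total weight times
`∑_{v ∈ A} 1 / h v`) gives `(t + 1)^2 ≤ μ(M) ∑_{v ∈ A} 1 / h v`. Multiplying by `λ_A` and summing,
`(t + 1)^2 λ(P) ≤ μ(M) n`; by symmetry `(t + 1)^2 μ(M) ≤ λ(P) n`; add both. The argument shows more:
the indicator vectors of a `t`-cover-free family on fewer than `(t + 1)^2` points are linearly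
independent over the reals (`KS6_73.CF.dependent`).
-/

set_option autoImplicit false

namespace Pool.Agent.Results.MP_0b1105_co.ExactBound

/-- `F` is `t`-cover-free: no member is contained in the union of at most `t` other members. -/
def CoverFree (t : ℕ) {n : ℕ} (F : Finset (Finset (Fin n))) : Prop :=
  ∀ A ∈ F, ∀ S ⊆ F.erase A, S.card ≤ t → ¬ A ⊆ S.sup id

/-- `N*(t)`: the least `n` for which some `t`-cover-free family of subsets of an `n`-element set
has more than `n` members. -/
noncomputable def Nstar (t : ℕ) : ℕ :=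
  sInf {n : ℕ | ∃ F : Finset (Finset (Fin n)), CoverFree t F ∧ n < F.card}

theorem result (t : ℕ) (ht : 1 ≤ t) :
    {n : ℕ | ∃ F : Finset (Finset (Fin n)), CoverFree t F ∧ n < F.card}.Nonempty ∧
    (t + 1) ^ 2 ≤ Nstar t ∧ (IsPrimePow (t + 1) → Nstar t = (t + 1) ^ 2) := by
  have hne : {n : ℕ | ∃ F : Finset (Finset (Fin n)), CoverFree t F ∧ n < F.card}.Nonempty := by
    obtain ⟨n, F, h1, h2⟩ := KS6_73.CF.exists_family t
    exact ⟨n, F, h2, h1⟩
  have hlow : (t + 1) ^ 2 ≤ Nstar t := by
    obtain ⟨F, h1, h2⟩ := Nat.sInf_mem hne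
    have h3 := KS6_73.CF.lower h1 (by rw [Fintype.card_fin]; exact h2)
    rwa [Fintype.card_fin] at h3
  refine ⟨hne, hlow, fun hq => le_antisymm ?_ hlow⟩
  obtain ⟨F, h1, h2⟩ := KS6_73.CF.plane_pp hq (Nat.lt_succ_self t)
  exact Nat.sInf_le ⟨F, h2, h1⟩

end Pool.Agent.Results.MP_0b1105_co.ExactBound
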